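import Pool.Agent.H310R3.CanF

/-!
# A compact metric space without isolated points and without infinite scattered subspaces

If there is a model of ZF, then there is a model of ZF with a nonempty compact metric space `x`
without isolated points such that no infinite subspace of `x` is scattered. In particular no
infinite subspace of `x` is both compact and scattered.
-/

namespace Pool.Agent.Results.MP_8cb5a2_lc.NoScattered

open FirstOrder FirstOrder.Language
open Pool.Agent.Helper672.Plain (LSet Mem El)
open Pool.Agent.H635Amen (ZF IsReals)
open Pool.Agent.H310Cards (IsFinite)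
open Pool.Agent.H310Metric (IsMetric IsCompact IsIsolated IsScattered)

universe u

theorem result (h : ∃ (M : Type u) (_ : LSet.Structure M), ZF M) :
    ∃ (N : Type u) (_ : LSet.Structure N), ZF N ∧
      ∃ (r : N) (_ : Field (El r)) (_ : LinearOrder (El r)) (_ : IsStrictOrderedRing (El r)),
        IsReals r ∧ ∃ (x : N) (d : El x → El x → El r), IsMetric d ∧ (∃ z, Mem z x) ∧
          IsCompact d x ∧ (∀ z, ¬ IsIsolated d x z) ∧
          ∀ y, (∀ z, Mem z y → Mem z x) → ¬ IsFinite y → ¬ IsScattered d y := by
  exact Pool.Agent.H310.exists_space h

end Pool.Agent.Results.MP_8cb5a2_lc.NoScattered
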